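import Pool.Agent.H.MP_a7dd25_pr.D

set_option autoImplicit false

namespace Pool.Agent.Results.MP_a7dd25_pr.Yes

open MeasureTheory Filter Real Finset Pool.Agent.H.MP_a7dd25_pr
open scoped ENNReal

theorem result (M : ℝ) : ∃ μ : Measure ℝ, IsProbabilityMeasure μ ∧ μ {0} = 0 ∧
    Integrable (fun x : ℝ => |x| ^ 3) μ ∧ ∫ x, x ∂μ = 0 ∧ ∫ x, x ^ 2 ∂μ = 1 ∧
    ∀ᶠ n : ℕ in atTop, ENNReal.ofReal (2 / π * Real.log n + M) ≤
      ∫⁻ a : Fin (n + 1) → ℝ,
        (Multiset.card (∑ k : Fin (n + 1), Polynomial.monomial (k : ℕ) (a k)).roots : ℝ≥0∞)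
        ∂(Measure.pi fun _ => μ) := by
  obtain ⟨m, hm⟩ := exists_nat_ge (15 * (|M| + 3000000))
  have M0 := abs_nonneg M
  have m2 : 2 ≤ m := by exact_mod_cast (show (2 : ℝ) ≤ m by linarith)
  obtain ⟨p, s, K, x, p0, p1, s0, h1, h2, xa, xb, hx⟩ := levels m
  obtain ⟨a1, a2, a3, a4⟩ := mom s p0 s0 h1
  refine ⟨mix p s, mix_prob p s p0 p1, a1, a2, a3, a4, ?_⟩
  filter_upwards [eventually_ge_atTop (K + 15 + 2 ^ m)] with n hn
  have L4 : (4 : ℝ) ≤ 2 ^ m := le_trans (by norm_num) (pow_le_pow_right₀ one_le_two m2)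
  have n0 := Nat.zero_le (2 ^ m)
  obtain ⟨T, u, um, ub, hu⟩ := bulk (fun j => s j ^ 2) p0 p1 h1 _ h2 L4 (n + 1) (by omega)
    (by exact_mod_cast (show 2 ^ m ≤ n + 1 by omega))
  obtain ⟨α, hα⟩ : ∃ α, α = Sum.elim (fun i : Fin m => x (i + 1)) (fun i : Fin T => u i) := ⟨_, rfl⟩
  obtain ⟨β, hβ⟩ : ∃ α, α = Sum.elim (fun i : Fin m => x i) (fun i : Fin T => u (i + 1)) := ⟨_, rfl⟩
  have α0 : ∀ i, 0 < α i := by
    rw [hα]; rintro (i | i)
    exacts [(xb _).1, lt_of_lt_of_le (by norm_num) (ub i).1]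
  have αβ : ∀ i, α i < β i := by
    rw [hα, hβ]; rintro (i | i)
    exacts [xa (Nat.lt_succ_self _), um (Nat.lt_succ_self _)]
  refine le_trans (ENNReal.ofReal_le_ofReal ?_) (lower p s p0 p1 s0 α β α0 αβ ?_ ?_ n)
  · simp only [Ex_div, fun (q : (Bool × Bool) × (Fin m ⊕ Fin T)) =>
      quad (p := p) (fun j => s j ^ 2) n q.1 _ _ (α0 q.2) ((α0 q.2).trans (αβ q.2))]
    rw [Fintype.sum_prod_type]
    simp only [sum_const, card_univ, Fintype.card_prod, Fintype.card_bool, nsmul_eq_mul, ← sum_div]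
    rw [Fintype.sum_sum_type, hα, hβ]
    simp only [Sum.elim_inl, Sum.elim_inr]
    rw [← Fin.sum_univ_eq_sum_range] at hu
    have b1 := sum_le_sum (s := univ) fun (i : Fin m) _ => hx (n + 1) (by omega) i i.2
    rw [sum_const, card_univ, Fintype.card_fin, nsmul_eq_mul] at b1
    have b2 : Real.log n ≤ Real.log (n + 1 : ℕ) :=
      log_le_log (by exact_mod_cast (show 0 < n by omega)) (by push_cast; linarith)
    have b3 := mul_le_mul_of_nonneg_left log_two_lt_d9.le (Nat.cast_nonneg (α := ℝ) m)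
    have b4 := mul_le_mul_of_nonneg_left pi_gt_three.le
      (show 0 ≤ 8 / 15 * (m : ℝ) - |M| by linarith)
    have b5 := mul_le_mul_of_nonneg_right (le_abs_self M) pi_pos.le
    rw [log_pow] at hu
    rw [← mul_div_assoc, le_div_iff₀ pi_pos, add_mul, mul_right_comm, div_mul_cancel₀ _ pi_pos.ne']
    push_cast at hu b2 ⊢
    linarith
  · rw [hβ]; rintro (i | i)
    exacts [lt_of_le_of_lt (xb i).2 (by norm_num), (ub _).2]
  · rw [hα, hβ]
    rintro (i | i) (j | j) h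
    · rcases lt_or_gt_of_ne (mt (congrArg Sum.inl) h) with c | c
      exacts [.inr (xa.antitone c), .inl (xa.antitone c)]
    · exact .inl ((xb _).2.trans (ub _).1)
    · exact .inr ((xb _).2.trans (ub _).1)
    · rcases lt_or_gt_of_ne (mt (congrArg Sum.inr) h) with c | c
      exacts [.inl (um.monotone c), .inr (um.monotone c)]

end Pool.Agent.Results.MP_a7dd25_pr.Yes
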